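import Pool.Agent.H92.RI6

open Set Filter Topology MeasureTheory Metric Pool.Agent.H92.RI

namespace Pool.Agent.Results.MP_e1010f_an.Balanced

theorem result {C A N M W : Type} [Fintype C] [DecidableEq C] [Fintype A]
    [NormedAddCommGroup W] [NormedSpace ℝ W] [FiniteDimensional ℝ W]
    (G : Net C A N M) (V : N → Submodule ℝ W) (hV : ∀ n, V n ≠ ⊥)
    (f : St G V → St G V) (hf : ContDiff ℝ 1 f) (hA : Adm G V f)
    (x : ℝ → St G V) (T : ℝ) (hx : HypOrbit f x T)
    (hR : Rigid G V f x T fun y _ => ∀ c d : C, (∀ t, (x t c : W) = x t d) →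
      ∀ t, (y t c : W) = y t d) (c d : C) (hcd : ∀ t, (x t c : W) = x t d) :
    G.τ c = G.τ d ∧ ∃ β : G.Iso c d, ∀ (e : G.I c) (t : ℝ),
      (x t (G.tl e.1) : W) = x t (G.tl (β.1 e).1) := by
  have hT := hx.1
  obtain ⟨K, hK, δ0, hδ0, hR⟩ := hR
  have hsep : ∀ᶠ r in 𝓝[>] (0 : ℝ), ∀ a b : C, (∀ t, ‖(x t a : W) - x t b‖ < 2 * r) →
      ∀ t, (x t a : W) = x t b := by
    refine eventually_all.2 fun a => eventually_all.2 fun b => ?_
    by_cases h : ∀ t, (x t a : W) = x t b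
    · exact Eventually.of_forall fun _ _ => h
    · push Not at h
      obtain ⟨t, ht⟩ := h
      have hp : 0 < ‖(x t a : W) - x t b‖ / 2 := by
        have := norm_pos_iff.2 (sub_ne_zero.2 ht); positivity
      filter_upwards [nhdsWithin_le_nhds (Iio_mem_nhds hp)] with r h1 h2
      exact absurd (h2 t) (by simp only [mem_Iio] at h1; linarith)
  obtain ⟨r, hsep, hr⟩ := (hsep.and self_mem_nhdsWithin).exists
  replace hr : 0 < r := hr
  obtain ⟨S, Cc, L, h⟩ := exists_sys hf hx (𝒜 := SAdm G V) SAdm.zero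
    (fun p q ε hp hq => hp.add (hq.smul ε)) (fun p hp => hp.contDiff) hK
    (δ := min (min δ0 (δ0 / T)) r) (by positivity)
  obtain ⟨p, u, l, s0, hS, hb⟩ := balanced hV hf hA h
  have l0 := (h.lam _ _ _ hS).2
  have e := rigid_state hT ((min_le_left _ _).trans (min_le_left _ _))
    ((le_div_iff₀ hT).1 ((min_le_left _ _).trans (min_le_right _ _))) h hR hS c d hcd (s0 * l)
  simp only at e
  rw [show s0 * l / l = s0 by field_simp] at e
  obtain ⟨r1, -, β, r3⟩ := hb c d e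
  refine ⟨r1, β, fun a => hsep _ _ fun t => ?_⟩
  have hp := h.adm _ _ _ hS
  have i1 := invariant (g := f + p) (hf.add hp.contDiff) (hA.add hp.adm) hT (h.per _ _ _ hS)
    (h.ode _ _ _ hS) hb t _ _ (r3 a)
  have n1 := (h.near _ _ _ hS t).trans_le (min_le_right _ _)
  have n2 := norm_sub_le ((u t (G.tl (β.1 a).1) : W) - x t (G.tl (β.1 a).1))
    ((u t (G.tl a.1) : W) - x t (G.tl a.1))
  have n3 := co_sub_le (G.tl (β.1 a).1) (u t) (x t)
  have n4 := co_sub_le (G.tl a.1) (u t) (x t)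
  rw [i1, sub_sub_sub_cancel_left] at n2
  rw [i1] at n3
  linarith

end Pool.Agent.Results.MP_e1010f_an.Balanced
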